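import Pool.Agent.TH183.QT.Basic
import Pool.Agent.TH15.NagEmpGeneric

set_option autoImplicit false

/-!
# Expansions of forms along several germs; passing from one configuration to general ones
-/

namespace Pool.Agent.J6H12.RW

open MvPolynomial (monomial)
open Pool.Agent.TH183.QT (exps mem_exps)

universe u

/-- the expansion `f(x + X, a(X) + Y, 1)` along the germ `y = a(X)`, `a(X) = ∑ a_k X ^ k`, at the
point with first coordinate `x` -/
noncomputable def xp {R : Type*} [CommRing R] (x : R) (a : ℕ → R) (f : MvPolynomial (Fin 3) R) :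
    Polynomial (PowerSeries R) :=
  MvPolynomial.aeval
    (![Polynomial.C (PowerSeries.C x + PowerSeries.X),
       Polynomial.C (PowerSeries.mk a) + Polynomial.X,
       1] : Fin 3 → Polynomial (PowerSeries R)) f

/-- the coefficient of `X ^ i * Y ^ j` in the expansion of a monomial -/
noncomputable def en {R : Type*} [CommRing R] (x : R) (a : ℕ → R) (m : Fin 3 →₀ ℕ) (i j : ℕ) : R :=
  PowerSeries.coeff i ((xp x a (monomial m (1 : R))).coeff j)

theorem xp_monomial {R : Type*} [CommRing R] (x : R) (a : ℕ → R) (m : Fin 3 →₀ ℕ) :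
    xp x a (monomial m (1 : R)) =
      (Polynomial.C (PowerSeries.C x + PowerSeries.X)) ^ (m 0) *
        (Polynomial.C (PowerSeries.mk a) + Polynomial.X) ^ (m 1) := by
  unfold xp
  rw [MvPolynomial.aeval_monomial, map_one, one_mul, Finsupp.prod_fintype _ _ (by simp),
    Fin.prod_univ_three]
  simp

theorem coeff_xp {R : Type*} [CommRing R] (x : R) (a : ℕ → R) (f : MvPolynomial (Fin 3) R)
    (i j : ℕ) :
    PowerSeries.coeff i ((xp x a f).coeff j) =
      ∑ m ∈ f.support, MvPolynomial.coeff m f * en x a m i j := by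
  have h : f = ∑ m ∈ f.support, MvPolynomial.coeff m f • monomial m (1 : R) := by
    conv_lhs => rw [f.as_sum]
    refine Finset.sum_congr rfl fun m _ => ?_
    rw [MvPolynomial.smul_monomial, smul_eq_mul, mul_one]
  conv_lhs => rw [h]
  unfold en xp
  rw [map_sum, Polynomial.finsetSum_coeff, map_sum]
  refine Finset.sum_congr rfl fun m _ => ?_
  rw [map_smul, Polynomial.coeff_smul, PowerSeries.coeff_smul, smul_eq_mul]

theorem map_en {R S : Type*} [CommRing R] [CommRing S] (φ : R →+* S) (x : R) (a : ℕ → R)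
    (m : Fin 3 →₀ ℕ) (i j : ℕ) : φ (en x a m i j) = en (φ x) (fun k => φ (a k)) m i j := by
  unfold en
  rw [← PowerSeries.coeff_map, ← Polynomial.coeff_map, xp_monomial, xp_monomial]
  congr 2
  have h : PowerSeries.map φ (PowerSeries.mk a) = PowerSeries.mk fun k => φ (a k) := by
    ext k
    simp
  simp [Polynomial.map_mul, Polynomial.map_pow, h]

theorem coeff_xp_form {R : Type*} [CommRing R] (x : R) (a : ℕ → R) {d : ℕ}
    {f : MvPolynomial (Fin 3) R} (hf : f.IsHomogeneous d) (i j : ℕ) :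
    PowerSeries.coeff i ((xp x a f).coeff j) =
      ∑ m : exps d, MvPolynomial.coeff m.1 f * en x a m.1 i j := by
  rw [coeff_xp, Finset.sum_coe_sort (exps d) (fun m => MvPolynomial.coeff m f * en x a m i j)]
  refine Finset.sum_subset ?_ ?_
  · intro m hm
    rw [mem_exps]
    rw [MvPolynomial.mem_support_iff] at hm
    by_contra hcon
    exact hm (hf.coeff_eq_zero hcon)
  · intro m _ hm
    rw [MvPolynomial.notMem_support_iff.1 hm, zero_mul]

/-- the form with given coefficients -/
theorem exists_form {R : Type*} [CommRing R] {d : ℕ} (v : exps d → R) :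
    ∃ f : MvPolynomial (Fin 3) R, f.IsHomogeneous d ∧ ∀ m : exps d, MvPolynomial.coeff m.1 f = v m := by
  classical
  refine ⟨∑ m : exps d, MvPolynomial.monomial m.1 (v m), ?_, ?_⟩
  · refine MvPolynomial.IsHomogeneous.sum _ _ _ fun m _ => ?_
    exact MvPolynomial.isHomogeneous_monomial _ (mem_exps.1 m.2)
  · intro m
    rw [MvPolynomial.coeff_sum, Finset.sum_eq_single m]
    · rw [MvPolynomial.coeff_monomial, if_pos rfl]
    · intro m' _ hm'
      rw [MvPolynomial.coeff_monomial, if_neg]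
      exact fun h => hm' (Subtype.ext h)
    · intro h
      exact absurd (Finset.mem_univ m) h

theorem form_ext {R : Type*} [CommRing R] {d : ℕ} {f : MvPolynomial (Fin 3) R}
    (hf : f.IsHomogeneous d) (h : ∀ m : exps d, MvPolynomial.coeff m.1 f = 0) : f = 0 := by
  ext m
  rw [MvPolynomial.coeff_zero]
  by_cases hm : m ∈ exps d
  · exact h ⟨m, hm⟩
  · apply hf.coeff_eq_zero
    rw [mem_exps] at hm
    exact hm

/-- the coefficients of `X ^ i Y ^ j`, `i < e j`, in the expansion vanish -/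
def Van {R : Type*} [CommRing R] (e : ℕ → ℕ) (x : R) (a : ℕ → R) (f : MvPolynomial (Fin 3) R) :
    Prop :=
  ∀ j, ∀ i < e j, PowerSeries.coeff i ((xp x a f).coeff j) = 0

/-- no nonzero form of degree `d` satisfies the conditions at the germs with the parameters `p`:
`p l 0` is the first coordinate of the point, `p l (k + 1)` are the coefficients of the germ -/
def Emp {R : Type*} [CommRing R] {s : ℕ} (d : ℕ) (e : Fin s → ℕ → ℕ) (p : Fin s → ℕ → R) : Prop :=
  ∀ f : MvPolynomial (Fin 3) R, f.IsHomogeneous d →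
    (∀ l, Van (e l) (p l 0) (fun k => p l (k + 1)) f) → f = 0

/-- emptiness passes from one configuration to general ones -/
theorem transfer {s d : ℕ} {e : Fin s → ℕ → ℕ} {K : Type} [Field K] [CharZero K]
    {p0 : Fin s → ℕ → K} (h : Emp d e p0) :
    ∃ F : MvPolynomial (Fin s × ℕ) ℚ, F ≠ 0 ∧ ∀ (L : Type u) [Field L] [CharZero L]
      (p : Fin s → ℕ → L), MvPolynomial.aeval (fun q : Fin s × ℕ => p q.1 q.2) F ≠ 0 →
        Emp d e p := by
  classical
  obtain ⟨b, hb⟩ := Pool.Agent.TH15.Nag.exists_rows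
    (R := {q : Fin s × ℕ × ℕ // q.2.1 < e q.1 q.2.2}) (σ := exps d)
    (fun q m => en (p0 q.1.1 0) (fun k => p0 q.1.1 (k + 1)) m.1 q.1.2.1 q.1.2.2) (by
    intro v hv
    obtain ⟨f, hf, hfv⟩ := exists_form v
    have h0 := h f hf (fun l j i hij => by
      rw [coeff_xp_form _ _ hf, ← hv ⟨(l, i, j), hij⟩]
      exact Finset.sum_congr rfl fun m _ => by rw [hfv, mul_comm])
    funext m
    rw [← hfv m, h0, MvPolynomial.coeff_zero]
    rfl)
  let D : MvPolynomial (Fin s × ℕ) ℚ := (Matrix.of fun j m : exps d =>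
    en (MvPolynomial.X ((b j).1.1, 0) : MvPolynomial (Fin s × ℕ) ℚ)
      (fun k => MvPolynomial.X ((b j).1.1, k + 1)) m.1 (b j).1.2.1 (b j).1.2.2).det
  have hD : ∀ {L : Type} [Field L] [CharZero L] (p : Fin s → ℕ → L),
      MvPolynomial.aeval (fun q : Fin s × ℕ => p q.1 q.2) D =
      (Matrix.of fun j m : exps d => en (p (b j).1.1 0) (fun k => p (b j).1.1 (k + 1)) m.1
        (b j).1.2.1 (b j).1.2.2).det := by
    intro L _ _ p
    rw [AlgHom.map_det]
    congr 1
    ext j m
    show (MvPolynomial.aeval (fun q : Fin s × ℕ => p q.1 q.2) :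
      MvPolynomial (Fin s × ℕ) ℚ →ₐ[ℚ] L) (en _ _ _ _ _) = _
    have := map_en ((MvPolynomial.aeval (fun q : Fin s × ℕ => p q.1 q.2) :
      MvPolynomial (Fin s × ℕ) ℚ →ₐ[ℚ] L) : MvPolynomial (Fin s × ℕ) ℚ →+* L)
      (MvPolynomial.X ((b j).1.1, 0)) (fun k => MvPolynomial.X ((b j).1.1, k + 1)) m.1
      (b j).1.2.1 (b j).1.2.2
    simp only [RingHom.coe_coe, MvPolynomial.aeval_X] at this
    exact this
  have hD' : ∀ {L : Type u} [Field L] [CharZero L] (p : Fin s → ℕ → L),
      MvPolynomial.aeval (fun q : Fin s × ℕ => p q.1 q.2) D =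
      (Matrix.of fun j m : exps d => en (p (b j).1.1 0) (fun k => p (b j).1.1 (k + 1)) m.1
        (b j).1.2.1 (b j).1.2.2).det := by
    intro L _ _ p
    rw [AlgHom.map_det]
    congr 1
    ext j m
    show (MvPolynomial.aeval (fun q : Fin s × ℕ => p q.1 q.2) :
      MvPolynomial (Fin s × ℕ) ℚ →ₐ[ℚ] L) (en _ _ _ _ _) = _
    have := map_en ((MvPolynomial.aeval (fun q : Fin s × ℕ => p q.1 q.2) :
      MvPolynomial (Fin s × ℕ) ℚ →ₐ[ℚ] L) : MvPolynomial (Fin s × ℕ) ℚ →+* L)
      (MvPolynomial.X ((b j).1.1, 0)) (fun k => MvPolynomial.X ((b j).1.1, k + 1)) m.1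
      (b j).1.2.1 (b j).1.2.2
    simp only [RingHom.coe_coe, MvPolynomial.aeval_X] at this
    exact this
  refine ⟨D, ?_, ?_⟩
  · intro h0
    apply hb
    rw [← hD p0, h0, map_zero]
  · intro L _ _ p hp f hf hv
    rw [hD' p] at hp
    apply form_ext hf
    intro m
    have h0 : (fun m : exps d => MvPolynomial.coeff m.1 f) = 0 := by
      apply Matrix.eq_zero_of_mulVec_eq_zero hp
      funext j
      have h1 := hv (b j).1.1 (b j).1.2.2 (b j).1.2.1 (b j).2
      rw [coeff_xp_form _ _ hf] at h1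
      rw [Pi.zero_apply, ← h1]
      rw [Matrix.mulVec, dotProduct]
      exact Finset.sum_congr rfl fun m _ => mul_comm _ _
    exact congrFun h0 m

end Pool.Agent.J6H12.RW
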