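import Pool.Agent.J6H12.RW.Base

set_option autoImplicit false

/-!
# Collision of germs on one curve
-/

namespace Pool.Agent.J6H12.RW

open Polynomial
open Pool.Agent.TH183.QT (exps mem_exps)

/-- the polynomial `f(X, q(X) + Y, 1)` -/
noncomputable def gp {R : Type*} [CommRing R] (q : R[X]) (f : MvPolynomial (Fin 3) R) : R[X][X] :=
  MvPolynomial.aeval (![C X, C q + X, 1] : Fin 3 → R[X][X]) f

theorem gp_smul {R : Type*} [CommRing R] (q : R[X]) (c : R) (f : MvPolynomial (Fin 3) R) (j : ℕ) :
    (gp q (c • f)).coeff j = C c * (gp q f).coeff j := by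
  unfold gp
  rw [map_smul, coeff_smul, ← smul_eq_C_mul]

theorem gp_map {R S : Type*} [CommRing R] [CommRing S] (φ : R →+* S) (q : R[X])
    (f : MvPolynomial (Fin 3) R) (j : ℕ) :
    (gp (q.map φ) (MvPolynomial.map φ f)).coeff j = ((gp q f).coeff j).map φ := by
  have h : gp (q.map φ) (MvPolynomial.map φ f) = mapRingHom (mapRingHom φ) (gp q f) := by
    unfold gp
    rw [MvPolynomial.aeval_def, MvPolynomial.aeval_def, MvPolynomial.eval₂_map,
      MvPolynomial.hom_eval₂]
    congr 1
    · ext c
      simp
    · funext i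
      fin_cases i <;> simp
  rw [h, coe_mapRingHom, coeff_map, coe_mapRingHom]

/-- the expansion along a polynomial germ -/
theorem xp_gp {R : Type*} [CommRing R] (x : R) (q : R[X]) (f : MvPolynomial (Fin 3) R) (j : ℕ) :
    (xp x (fun k => (q.comp (X + C x)).coeff k) f).coeff j =
      ((((gp q f).coeff j).comp (X + C x) : R[X]) : PowerSeries R) := by
  have h : xp x (fun k => (q.comp (X + C x)).coeff k) f =
      mapRingHom ((coeToPowerSeries.ringHom (R := R)).comp (compRingHom (X + C x))) (gp q f) := by
    unfold gp xp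
    rw [MvPolynomial.aeval_def, MvPolynomial.aeval_def, MvPolynomial.hom_eval₂]
    congr 1
    · ext c
      simp
    · funext i
      fin_cases i
      · simp [add_comm]
      · have h2 : PowerSeries.mk (fun k => (q.comp (X + C x)).coeff k) =
            ((q.comp (X + C x) : R[X]) : PowerSeries R) := by
          ext k
          simp
        simp [h2]
      · simp
  rw [h, coe_mapRingHom, coeff_map]
  rfl

theorem dvd_of_van {R : Type*} [CommRing R] [IsDomain R] {e : ℕ → ℕ} {x : R} {q : R[X]}
    {f : MvPolynomial (Fin 3) R} (h : Van e x (fun k => (q.comp (X + C x)).coeff k) f) (j : ℕ) :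
    (X - C x) ^ e j ∣ (gp q f).coeff j := by
  have h1 : (X : R[X]) ^ e j ∣ ((gp q f).coeff j).comp (X + C x) := by
    rw [X_pow_dvd_iff]
    intro i hi
    have h2 := h j i hi
    rw [xp_gp, coeff_coe] at h2
    exact h2
  obtain ⟨g, hg⟩ := h1
  refine ⟨g.comp (X - C x), ?_⟩
  have h3 := congrArg (fun p : R[X] => p.comp (X - C x)) hg
  simp only [mul_comp, pow_comp, X_comp, comp_assoc, add_comp, C_comp, sub_add_cancel,
    comp_X] at h3
  exact h3

theorem exists_dvd {A : Type*} [CommRing A] [IsDomain A] [ValuationRing A] {N : Type*} (w : N → A)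
    (S : Finset N) (hS : S.Nonempty) : ∃ m0 ∈ S, ∀ m ∈ S, w m0 ∣ w m := by
  classical
  induction hS using Finset.Nonempty.cons_induction with
  | singleton a => exact ⟨a, Finset.mem_singleton_self a, fun m hm => by
      rw [Finset.mem_singleton.1 hm]⟩
  | cons a S ha hS ih =>
    obtain ⟨m0, hm0, h⟩ := ih
    rcases ValuationRing.dvd_total (w a) (w m0) with h1 | h1
    · refine ⟨a, Finset.mem_cons_self a S, fun m hm => ?_⟩
      rcases Finset.mem_cons.1 hm with rfl | hm
      · exact dvd_rfl
      · exact h1.trans (h m hm)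
    · refine ⟨m0, Finset.mem_cons_of_mem hm0, fun m hm => ?_⟩
      rcases Finset.mem_cons.1 hm with rfl | hm
      · exact h1
      · exact h m hm

/-- **collision**: if there is no form with the sums of the conditions at one point of the curve
`y = q(x)`, then there is none with the single conditions at several points of the curve close to
this point -/
theorem collide_curve {s d : ℕ} {e : Fin s → ℕ → ℕ} {K : Type} [Field K] [CharZero K] (x0 : K)
    (q : K[X]) (h : ∀ f : MvPolynomial (Fin 3) K, f.IsHomogeneous d →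
      (∀ j, (X - C x0 : K[X]) ^ (∑ l, e l j) ∣ (gp q f).coeff j) → f = 0) :
    ∃ (K' : Type) (_ : Field K') (_ : CharZero K') (x : Fin s → K') (q' : K'[X]),
      ∀ f : MvPolynomial (Fin 3) K', f.IsHomogeneous d →
        (∀ l j, (X - C (x l) : K'[X]) ^ e l j ∣ (gp q' f).coeff j) → f = 0 := by
  classical
  let A := PowerSeries K
  let K' := FractionRing A
  let ι : A →+* K' := algebraMap A K'
  have hι : Function.Injective ι := IsFractionRing.injective A K'
  have : CharZero A := by
    refine ⟨fun a b hab => ?_⟩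
    have h1 := congrArg (PowerSeries.constantCoeff (R := K)) hab
    simpa using h1
  have : CharZero K' := charZero_of_injective_algebraMap hι
  let x : Fin s → A := fun l =>
    PowerSeries.C x0 + PowerSeries.C ((l : ℕ) : K) * PowerSeries.X
  have hx : Function.Injective x := by
    intro l l' hl
    have hc : ∀ c : K, PowerSeries.coeff 1
        (PowerSeries.C x0 + PowerSeries.C c * PowerSeries.X : PowerSeries K) = c := by
      intro c
      rw [map_add, PowerSeries.coeff_C_mul, PowerSeries.coeff_one_X, mul_one,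
        PowerSeries.coeff_C, if_neg one_ne_zero, zero_add]
    have h1 : PowerSeries.coeff 1
          (PowerSeries.C x0 + PowerSeries.C ((l : ℕ) : K) * PowerSeries.X : PowerSeries K) =
        PowerSeries.coeff 1
          (PowerSeries.C x0 + PowerSeries.C ((l' : ℕ) : K) * PowerSeries.X : PowerSeries K) :=
      congrArg (PowerSeries.coeff 1) hl
    rw [hc, hc] at h1
    exact Fin.ext (by exact_mod_cast h1)
  let qA : A[X] := q.map (PowerSeries.C (R := K))
  let ρ : A →+* K := PowerSeries.constantCoeff (R := K)
  have hqA : qA.map ρ = q := by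
    show (q.map _).map _ = q
    rw [Polynomial.map_map]
    have : ρ.comp (PowerSeries.C (R := K)) = RingHom.id K := by
      ext c
      exact PowerSeries.constantCoeff_C c
    rw [this, Polynomial.map_id]
  have hρx : ∀ l, ρ (x l) = x0 := by
    intro l
    show PowerSeries.constantCoeff
      (PowerSeries.C x0 + PowerSeries.C ((l : ℕ) : K) * PowerSeries.X : PowerSeries K) = x0
    rw [map_add, map_mul, PowerSeries.constantCoeff_X, mul_zero, PowerSeries.constantCoeff_C,
      add_zero]
  refine ⟨K', inferInstance, inferInstance, fun l => ι (x l), qA.map ι, ?_⟩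
  intro f hf hv
  by_contra hne
  obtain ⟨b, hb⟩ := IsLocalization.exist_integer_multiples_of_finite (nonZeroDivisors A)
    (fun m : exps d => MvPolynomial.coeff m.1 f)
  choose w hw using hb
  have hb0 : ι (b : A) ≠ 0 := by
    rw [map_ne_zero_iff ι hι]
    exact nonZeroDivisors.ne_zero b.2
  have hNe : Nonempty (exps d) := by
    by_contra hcon
    rw [not_nonempty_iff] at hcon
    exact hne (form_ext hf fun m => hcon.elim m)
  obtain ⟨m0, -, hm0⟩ := exists_dvd w Finset.univ Finset.univ_nonempty
  choose u hu using fun m => hm0 m (Finset.mem_univ m)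
  have hw' : ∀ m : exps d, ι (w m) = ι (b : A) * MvPolynomial.coeff m.1 f := by
    intro m
    have := hw m
    rw [this, Algebra.smul_def]
  have hw0 : w m0 ≠ 0 := by
    intro h0
    apply hne
    apply form_ext hf
    intro m
    have h1 := hw' m
    rw [hu m, h0, zero_mul, map_zero] at h1
    exact (mul_eq_zero.1 h1.symm).resolve_left hb0
  have hu0 : u m0 = 1 := by
    have := hu m0
    exact (mul_right_injective₀ hw0 (by simpa using this.symm) : u m0 = 1)
  obtain ⟨g, hg, hgu⟩ := exists_form u
  have hfg : ι (b : A) • f = ι (w m0) • MvPolynomial.map ι g := by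
    rw [← sub_eq_zero]
    have h1 : (ι (b : A) • f - ι (w m0) • MvPolynomial.map ι g).IsHomogeneous d := by
      refine MvPolynomial.IsHomogeneous.sub ?_ ?_
      · rw [MvPolynomial.smul_eq_C_mul]
        have := (MvPolynomial.isHomogeneous_C (Fin 3) (ι (b : A))).mul hf
        rwa [zero_add] at this
      · rw [MvPolynomial.smul_eq_C_mul]
        have := (MvPolynomial.isHomogeneous_C (Fin 3) (ι (w m0))).mul (hg.map ι)
        rwa [zero_add] at this
    apply form_ext h1
    intro m
    rw [MvPolynomial.coeff_sub, MvPolynomial.coeff_smul, MvPolynomial.coeff_smul,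
      MvPolynomial.coeff_map, hgu, smul_eq_mul, smul_eq_mul, ← hw' m, ← map_mul, ← hu m, sub_self]
  have hdvd : ∀ j l, (X - C (ι (x l))) ^ e l j ∣ ((gp qA g).coeff j).map ι := by
    intro j l
    have h1 : (X - C (ι (x l))) ^ e l j ∣ (gp (qA.map ι) f).coeff j := hv l j
    have h2 : (gp (qA.map ι) (ι (b : A) • f)).coeff j =
        (gp (qA.map ι) (ι (w m0) • MvPolynomial.map ι g)).coeff j := by rw [hfg]
    rw [gp_smul, gp_smul, gp_map] at h2
    have h3 : (X - C (ι (x l))) ^ e l j ∣ C (ι (w m0)) * ((gp qA g).coeff j).map ι := by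
      rw [← h2]
      exact Dvd.dvd.mul_left h1 _
    have h4 : IsUnit (C (ι (w m0)) : K'[X]) := by
      rw [isUnit_C, isUnit_iff_ne_zero, map_ne_zero_iff ι hι]
      exact hw0
    exact (h4.dvd_mul_left).1 h3
  have hmon : ∀ j, (∏ l, (X - C (x l)) ^ e l j : A[X]).Monic := fun j =>
    monic_prod_of_monic _ _ fun l _ => (monic_X_sub_C _).pow _
  have hprod : ∀ j, (∏ l, (X - C (x l)) ^ e l j : A[X]) ∣ (gp qA g).coeff j := by
    intro j
    rw [← map_dvd_map ι hι (hmon j), Polynomial.map_prod]
    have e1 : ∀ l, ((X - C (x l)) ^ e l j : A[X]).map ι = (X - C (ι (x l))) ^ e l j := by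
      intro l
      rw [Polynomial.map_pow, Polynomial.map_sub, map_X, map_C]
    rw [Finset.prod_congr rfl fun l _ => e1 l]
    apply Finset.prod_dvd_of_coprime
    · intro l _ l' _ hll
      exact (pairwise_coprime_X_sub_C (hι.comp hx) hll).pow
    · intro l _
      exact hdvd j l
  have h0 : MvPolynomial.map ρ g = 0 := by
    apply h _ (hg.map ρ)
    intro j
    have h1 := Polynomial.map_dvd ρ (hprod j)
    rw [← gp_map, hqA, Polynomial.map_prod] at h1
    have e1 : ∀ l, ((X - C (x l)) ^ e l j : A[X]).map ρ = (X - C x0) ^ e l j := by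
      intro l
      rw [Polynomial.map_pow, Polynomial.map_sub, map_X, map_C, hρx]
    rw [Finset.prod_congr rfl fun l _ => e1 l, Finset.prod_pow_eq_pow_sum] at h1
    exact h1
  have h1 := congrArg (MvPolynomial.coeff m0.1) h0
  rw [MvPolynomial.coeff_map, hgu, hu0, map_one, MvPolynomial.coeff_zero] at h1
  exact one_ne_zero h1

/-- the same for the parameters of the germs -/
theorem collide {s d : ℕ} {e : Fin s → ℕ → ℕ} {K : Type} [Field K] [CharZero K] (x0 : K)
    (q : K[X]) (h : ∀ f : MvPolynomial (Fin 3) K, f.IsHomogeneous d →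
      (∀ j, (X - C x0 : K[X]) ^ (∑ l, e l j) ∣ (gp q f).coeff j) → f = 0) :
    ∃ (K' : Type) (_ : Field K') (_ : CharZero K') (p0 : Fin s → ℕ → K'), Emp d e p0 := by
  obtain ⟨K', _, _, x, q', h'⟩ := collide_curve (e := e) x0 q h
  exact ⟨K', inferInstance, inferInstance, fun l k => match k with
    | 0 => x l
    | k + 1 => (q'.comp (X + C (x l))).coeff k, fun f hf hv => h' f hf fun l j =>
      dvd_of_van (hv l) j⟩

end Pool.Agent.J6H12.RW
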