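import Pool.Agent.J6H12.RW.Main

set_option autoImplicit false

/-!
# The ideals of general quasimonomial collisions
-/

namespace Pool.Agent.J6H12.RW

open Polynomial Pool.Agent.H932R2 Pool.Agent.H932R3
open Pool.Agent.J6H44.UC (MI jets mem_jets_iff)
open Pool.Agent.Y939.SC (par)

universe u v

/-- changing the curve modulo a power of `x - c` -/
theorem MI_le {K : Type v} [Field K] {c : K} {q q' : K[X]} {e : ℕ → ℕ} {r : ℕ}
    (hq : (X - C c) ^ r ∣ q - q') (he : ∀ j, e j ≤ e (j + 1) + r) : MI c q' e ≤ MI c q e := by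
  have he' : ∀ n j, e j ≤ e (j + n) + r * n := by
    intro n
    induction n with
    | zero => intro j; simp
    | succ n ih =>
      intro j
      have h1 := ih j
      have h2 := he (j + n)
      rw [Nat.mul_succ, ← add_assoc j n 1]
      omega
  obtain ⟨b, hb⟩ := hq
  unfold MI
  rw [Ideal.span_le]
  rintro _ ⟨t, rfl⟩
  show (X - C q') ^ t * C ((X - C c) ^ e t) ∈
    Ideal.span (Set.range fun t : ℕ => (X - C q) ^ t * C ((X - C c) ^ e t))
  have h1 : (X - C q' : K[X][X]) = (X - C q) + C ((X - C c) ^ r * b) := by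
    rw [← hb, C_sub]
    ring
  rw [h1, add_pow, Finset.sum_mul]
  refine Ideal.sum_mem _ fun k hk => ?_
  rw [Finset.mem_range] at hk
  obtain ⟨n, hn⟩ : ∃ n, t = k + n := ⟨t - k, by omega⟩
  subst hn
  obtain ⟨w, hw⟩ := Nat.exists_eq_add_of_le (he' n k)
  have h2 : ((X - C q) ^ k * C ((X - C c) ^ r * b) ^ (k + n - k) * ((k + n).choose k : K[X][X])) *
      C ((X - C c) ^ e (k + n)) =
      (C ((X - C c) ^ w * b ^ n) * ((k + n).choose k : K[X][X])) *
        ((X - C q) ^ k * C ((X - C c) ^ e k)) := by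
    have h3 : (X - C c) ^ e (k + n) * (X - C c) ^ (r * n) = (X - C c) ^ e k * (X - C c) ^ w := by
      rw [← pow_add, ← pow_add, hw]
    have h4 : C ((X - C c) ^ r * b) ^ (k + n - k) * C ((X - C c) ^ e (k + n)) =
        (C ((X - C c) ^ w * b ^ n) * C ((X - C c) ^ e k) : K[X][X]) := by
      rw [Nat.add_sub_cancel_left, ← C_pow, ← C_mul, ← C_mul, mul_pow, ← pow_mul]
      congr 1
      linear_combination (b ^ n) * h3
    linear_combination ((X - C q) ^ k * ((k + n).choose k : K[X][X])) * h4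
  rw [h2]
  exact Ideal.mul_mem_left _ _ (Ideal.subset_span ⟨k, rfl⟩)

theorem dvd_of_mem_MI {K : Type} [Field K] {x0 : K} {q : K[X]} {e : ℕ → ℕ} (he : Antitone e)
    {f : MvPolynomial (Fin 3) K} (h : deh K f ∈ MI x0 q e) (j : ℕ) :
    (X - C x0 : K[X]) ^ e j ∣ (gp q f).coeff j := by
  have h1 : gp q f = (deh K f).comp (X + C q) := by
    unfold deh gp
    rw [MvPolynomial.aeval_def, MvPolynomial.aeval_def, ← coe_compRingHom_apply,
      MvPolynomial.hom_eval₂]
    congr 1
    · ext c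
      simp
    · funext i
      fin_cases i
      · simp
      · simp [add_comm]
      · simp
  have h2 : ∀ g ∈ MI x0 q e, ∀ j, (X - C x0 : K[X]) ^ e j ∣ (g.comp (X + C q)).coeff j := by
    intro g hg
    unfold MI at hg
    induction hg using Submodule.span_induction with
    | mem x hx =>
      obtain ⟨t, rfl⟩ := hx
      intro j
      simp only [mul_comp, pow_comp, sub_comp, X_comp, C_comp, add_sub_cancel_right]
      rw [mul_comm, coeff_C_mul, coeff_X_pow]
      split_ifs with h3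
      · rw [h3, mul_one]
      · rw [mul_zero]; exact dvd_zero _
    | zero => intro j; simp
    | add x y _ _ hx hy =>
      intro j
      rw [add_comp, coeff_add]
      exact dvd_add (hx j) (hy j)
    | smul a x _ hx =>
      intro j
      rw [smul_eq_mul, mul_comp, coeff_mul]
      apply Finset.dvd_sum
      rintro ⟨i, l⟩ hij
      rw [Finset.HasAntidiagonal.mem_antidiagonal] at hij
      simp only at hij ⊢
      exact Dvd.dvd.mul_left (dvd_trans (pow_dvd_pow _ (he (by omega))) (hx l)) _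
  rw [h1]
  exact h2 _ h j

/-- **general unions of quasimonomial collisions**, finitely many parameters -/
theorem ideals {s d : ℕ} {r : Fin s → ℕ} {t w : Fin s → ℝ} (ht0 : ∀ l, 0 ≤ t l)
    (htr : ∀ l, t l ≤ r l) (h : Cnd d (∑ l, t l) (∑ l, w l)) (L : Type u) [Field L] [CharZero L] :
    ∃ F : MvPolynomial (Σ l, Fin (r l + 1)) L, F ≠ 0 ∧
      ∀ (c : Fin s → L) (a : ∀ l, Fin (r l) → L), MvPolynomial.eval (par c a) F ≠ 0 →
        NoForm (jets (fun l j => ⌈w l - t l * j⌉₊) c a) d := by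
  have hanti : ∀ l, Antitone fun j : ℕ => ⌈w l - t l * j⌉₊ := by
    intro l a b hab
    apply Nat.ceil_mono
    have h1 : ((a : ℕ) : ℝ) ≤ b := by exact_mod_cast hab
    have := mul_le_mul_of_nonneg_left h1 (ht0 l)
    linarith
  have hstep : ∀ l, ∀ j : ℕ, ⌈w l - t l * j⌉₊ ≤ ⌈w l - t l * (j + 1 : ℕ)⌉₊ + r l := by
    intro l j
    rw [Nat.ceil_le]
    push_cast
    have h1 := Nat.le_ceil (w l - t l * ((j : ℝ) + 1))
    have h2 := htr l
    nlinarith
  have hE : ∀ j : ℕ, j ≤ d → ∑ l, w l - (∑ l, t l) * j ≤ ((∑ l, ⌈w l - t l * j⌉₊ : ℕ) : ℝ) := by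
    intro j hj
    rw [Finset.sum_mul, ← Finset.sum_sub_distrib]
    push_cast
    exact Finset.sum_le_sum fun l _ => Nat.le_ceil _
  have h1 : ∃ (K : Type) (_ : Field K) (_ : CharZero K) (x0 : K) (q : K[X]),
      ∀ f : MvPolynomial (Fin 3) K, f.IsHomogeneous d →
        (∀ j : ℕ, (X - C x0 : K[X]) ^ (∑ l, ⌈w l - t l * j⌉₊) ∣ (gp q f).coeff j) → f = 0 := by
    rcases h with ⟨ht, hw⟩ | ⟨hd, ⟨n, hn, hnT⟩, hw⟩
    · obtain ⟨q, hq⟩ := single (E := fun j => ∑ l, ⌈w l - t l * j⌉₊) ht hw hE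
      exact ⟨ℂ, inferInstance, inferInstance, 0, q, hq⟩
    · exact single_int (E := fun j => ∑ l, ⌈w l - t l * j⌉₊) hn hd (by
        intro j hj
        have h1 := hE j hj
        rw [← hnT] at h1 hw
        linarith)
  obtain ⟨K, _, _, x0, q, hq⟩ := h1
  obtain ⟨K', _, _, x, q', h'⟩ := collide_curve (e := fun l j => ⌈w l - t l * j⌉₊) x0 q hq
  have hmod : ∀ l, ∑ j : Fin (r l), C ((q' %ₘ (X - C (x l)) ^ r l).coeff j) * X ^ (j : ℕ) =
      q' %ₘ (X - C (x l)) ^ r l := by
    intro l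
    rw [Fin.sum_univ_eq_sum_range
      (fun j => C ((q' %ₘ (X - C (x l)) ^ r l).coeff j) * X ^ j : ℕ → K'[X]) (r l)]
    have hmon : ((X - C (x l)) ^ r l : K'[X]).Monic := (monic_X_sub_C _).pow _
    have hdeg : (q' %ₘ (X - C (x l)) ^ r l).degree < r l := by
      have h2 := degree_modByMonic_lt q' hmon
      rw [degree_pow, degree_X_sub_C] at h2
      simpa using h2
    by_cases hq0 : q' %ₘ (X - C (x l)) ^ r l = 0
    · rw [hq0]; simp
    · exact (as_sum_range_C_mul_X_pow' _ ((natDegree_lt_iff_degree_lt hq0).2 hdeg)).symm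
  have h0 : NoForm (jets (fun l j => ⌈w l - t l * j⌉₊) x
      (fun l (j : Fin (r l)) => (q' %ₘ (X - C (x l)) ^ r l).coeff j)) d := by
    intro f hf hmem
    rw [MvPolynomial.mem_homogeneousSubmodule] at hf
    refine h' f hf fun l j => ?_
    have h2 := mem_jets_iff.1 hmem l
    rw [hmod l] at h2
    refine dvd_of_mem_MI (hanti l) (MI_le ?_ (hstep l) h2) j
    rw [modByMonic_eq_sub_mul_div]
    refine ⟨q' /ₘ (X - C (x l)) ^ r l, by ring⟩
  exact Pool.Agent.J6H44.UC.transfer 0 hanti h0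

end Pool.Agent.J6H12.RW
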