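import Pool.Agent.J6H12.RW.Coll
import Pool.Agent.J6H44.UC.Main

set_option autoImplicit false

/-!
# One germ and integral weights larger than nine: the boundary case
-/

namespace Pool.Agent.J6H12.RW

open Polynomial Pool.Agent.H932R2 Pool.Agent.H932R3
open Pool.Agent.J6H44.UC (MI jets Cond)

theorem deh_mem_MI {K : Type} [Field K] {x0 : K} {q : K[X]} {e E : ℕ → ℕ}
    {f : MvPolynomial (Fin 3) K} (h : ∀ j, (X - C x0 : K[X]) ^ E j ∣ (gp q f).coeff j)
    (hE : ∀ j, e j ≤ E j) : deh K f ∈ MI x0 q e := by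
  have h1 : deh K f = (gp q f).comp (X - C q) := by
    unfold deh gp
    rw [MvPolynomial.aeval_def, MvPolynomial.aeval_def, ← coe_compRingHom_apply,
      MvPolynomial.hom_eval₂]
    congr 1
    · ext c
      simp
    · funext i
      fin_cases i <;> simp
  rw [h1, comp_eq_sum_left, Polynomial.sum_def]
  refine Ideal.sum_mem _ fun j _ => ?_
  obtain ⟨b, hb⟩ := h j
  obtain ⟨n, hn⟩ := Nat.exists_eq_add_of_le (hE j)
  have h2 : C ((gp q f).coeff j) * (X - C q) ^ j =
      C (b * (X - C x0) ^ n) * ((X - C q) ^ j * C ((X - C x0) ^ e j)) := by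
    rw [hb, hn, pow_add, C_mul, C_mul, C_mul]
    ring
  rw [h2]
  exact Ideal.mul_mem_left _ _ (Ideal.subset_span ⟨j, rfl⟩)

theorem sum_mk (n M : ℕ) (hn : 0 < n) :
    ∑ k : Fin n, (if (k : ℕ) < M % n then M / n + 1 else M / n) = M := by
  have h1 : ∀ k : Fin n, (if (k : ℕ) < M % n then M / n + 1 else M / n) =
      M / n + (if (k : ℕ) < M % n then 1 else 0) := by
    intro k
    split_ifs <;> rfl
  rw [Finset.sum_congr rfl fun k _ => h1 k, Finset.sum_add_distrib, Finset.sum_const,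
    Finset.card_univ, Fintype.card_fin, smul_eq_mul]
  have h2 : ∑ k : Fin n, (if (k : ℕ) < M % n then 1 else 0) = M % n := by
    rw [Finset.sum_boole, Fin.card_filter_val_lt]
    simp [(Nat.mod_lt M hn).le]
  rw [h2]
  exact Nat.div_add_mod M n

theorem single_int {n d : ℕ} (hn : 9 < n) (hd : 1 ≤ d) {E : ℕ → ℕ}
    (hE : ∀ j : ℕ, j ≤ d → (d : ℝ) * √(n : ℝ) ≤ E j + n * j) :
    ∃ (K : Type) (_ : Field K) (_ : CharZero K) (x0 : K) (q : K[X]),
      ∀ f : MvPolynomial (Fin 3) K, f.IsHomogeneous d →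
        (∀ j, (X - C x0 : K[X]) ^ (E j) ∣ (gp q f).coeff j) → f = 0 := by
  have hn0 : (0 : ℝ) < n := by exact_mod_cast (by omega : 0 < n)
  have hd0 : (0 : ℝ) < d := by exact_mod_cast hd
  have hs : 0 < √(n : ℝ) := Real.sqrt_pos.2 hn0
  have hsn : √(n : ℝ) ≤ n := by
    have h1 : (1 : ℝ) ≤ n := by exact_mod_cast (by omega : 1 ≤ n)
    have h2 : 1 ≤ √(n : ℝ) := Real.one_le_sqrt.2 h1
    nlinarith [Real.mul_self_sqrt hn0.le]
  obtain ⟨M, hM⟩ : ∃ M, M = ⌈(d : ℝ) * √(n : ℝ)⌉₊ := ⟨_, rfl⟩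
  have hM1 : (d : ℝ) * √(n : ℝ) ≤ M := by rw [hM]; exact Nat.le_ceil _
  have hM0 : 0 < M := by
    rw [hM]
    exact Nat.ceil_pos.2 (mul_pos hd0 hs)
  have hMd : M ≤ n * d := by
    rw [hM, Nat.ceil_le]
    push_cast
    rw [mul_comm]
    exact mul_le_mul_of_nonneg_right hsn hd0.le
  have hE' : ∀ j, M ≤ E j + n * j := by
    intro j
    rcases Nat.lt_or_ge d j with h | h
    · have : n * d ≤ n * j := Nat.mul_le_mul_left n h.le
      omega
    · rw [hM, Nat.ceil_le]
      push_cast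
      exact hE j h
  let m : Unit → Fin n → ℕ := fun _ k => if (k : ℕ) < M % n then M / n + 1 else M / n
  have hsum : ∑ i : Unit, ∑ k, m i k = M := by
    rw [Finset.univ_unique, Finset.sum_singleton]
    exact sum_mk n M (by omega)
  obtain ⟨L, _, _, c, a, hNF⟩ := Pool.Agent.J6H44.UC.exists_config (p := 0) (Or.inl rfl)
    (ι := Unit) (r := fun _ => n) m (d := d) (by rw [hsum]; exact hM0) (by
      rw [hsum]
      refine Or.inr ⟨by simpa using hn, ?_⟩
      simp only [Finset.univ_unique, Finset.sum_const, Finset.card_singleton, one_smul]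
      rw [mul_comm]
      exact hM1)
  have : CharZero L := CharP.charP_to_charZero L
  refine ⟨L, inferInstance, inferInstance, c (), ∑ j : Fin n, C (a () j) * X ^ (j : ℕ),
    fun f hf hX => ?_⟩
  refine hNF f ((MvPolynomial.mem_homogeneousSubmodule _ _).2 hf) ?_
  rw [Pool.Agent.J6H44.UC.mem_jets_iff]
  rintro ⟨⟩
  refine deh_mem_MI hX fun j => ?_
  rcases Nat.lt_or_ge (M / n) j with h | h
  · refine le_trans (le_of_eq ?_) (Nat.zero_le _)
    refine Finset.sum_eq_zero fun k _ => ?_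
    show (if (k : ℕ) < M % n then M / n + 1 else M / n) - j = 0
    split_ifs <;> omega
  · have h1 : ∑ k : Fin n, (m () k - j) + n * j = M := by
      have h2 : n * j = ∑ _k : Fin n, j := by
        rw [Finset.sum_const, Finset.card_univ, Fintype.card_fin, smul_eq_mul]
      rw [h2, ← Finset.sum_add_distrib]
      conv_rhs => rw [← sum_mk n M (by omega)]
      refine Finset.sum_congr rfl fun k _ => ?_
      show (if (k : ℕ) < M % n then M / n + 1 else M / n) - j + j =
        (if (k : ℕ) < M % n then M / n + 1 else M / n)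
      split_ifs <;> omega
    have h3 := hE' j
    show ∑ k : Fin n, (m () k - j) ≤ E j
    omega

end Pool.Agent.J6H12.RW
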