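import Pool.Agent.J6H12.RW.Base
import Pool.Agent.TH183.QT.Lower

set_option autoImplicit false

/-!
# The bound is sharp for all germs
-/

namespace Pool.Agent.J6H12.RW

open Pool.Agent.TH183.QT (exps mem_exps card_exps)

/-- forms of large value at all germs, from a count of conditions -/
theorem exists_high {L : Type*} [Field L] {s d : ℕ} (p : Fin s → ℕ → L) {t : Fin s → ℝ} (m : ℕ)
    (hcount : ∑ l, ∑ j : Fin m, ⌈t l * ((m : ℝ) - (j : ℕ))⌉₊ < (d + 2).choose 2)
    (ht0 : ∀ l, 0 ≤ t l) :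
    ∃ f : MvPolynomial (Fin 3) L, f.IsHomogeneous d ∧ f ≠ 0 ∧ ∀ l i j,
      PowerSeries.coeff i ((xp (p l 0) (fun k => p l (k + 1)) f).coeff j) ≠ 0 →
        t l * m ≤ i + t l * j := by
  classical
  let N := Σ l : Fin s, Σ j : Fin m, Fin ⌈t l * ((m : ℝ) - (j : ℕ))⌉₊
  let Φ : (exps d → L) →ₗ[L] (N → L) :=
    { toFun := fun v q => ∑ m : exps d, v m *
        en (p q.1 0) (fun k => p q.1 (k + 1)) m.1 q.2.2 q.2.1
      map_add' := fun v w => by
        funext p
        simp only [Pi.add_apply, add_mul, Finset.sum_add_distrib]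
      map_smul' := fun a v => by
        funext p
        simp only [Pi.smul_apply, smul_eq_mul, RingHom.id_apply, Finset.mul_sum, mul_assoc] }
  have h1 : Module.finrank L (N → L) < Module.finrank L (exps d → L) := by
    rw [Module.finrank_fintype_fun_eq_card, Module.finrank_fintype_fun_eq_card, Fintype.card_coe,
      card_exps, Fintype.card_sigma]
    simp only [Fintype.card_sigma, Fintype.card_fin]
    exact hcount
  have h2 := LinearMap.ker_ne_bot_of_finrank_lt (f := Φ) h1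
  obtain ⟨v, hv, hv0⟩ := (Submodule.ne_bot_iff _).1 h2
  obtain ⟨f, hf, hfv⟩ := exists_form v
  refine ⟨f, hf, ?_, ?_⟩
  · intro h0
    apply hv0
    funext m
    rw [← hfv m, h0, MvPolynomial.coeff_zero]
    rfl
  · intro l i j hij
    by_contra hcon
    rw [not_le] at hcon
    apply hij
    have hi0 : (0 : ℝ) ≤ i := Nat.cast_nonneg i
    have hjm : j < m := by
      by_contra hjm
      have h3 : (m : ℝ) ≤ j := by exact_mod_cast not_lt.1 hjm
      have := mul_le_mul_of_nonneg_left h3 (ht0 l)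
      linarith
    have hi : i < ⌈t l * ((m : ℝ) - ((⟨j, hjm⟩ : Fin m) : ℕ))⌉₊ := by
      rw [Nat.lt_ceil]
      show (i : ℝ) < t l * ((m : ℝ) - (j : ℕ))
      linarith
    rw [coeff_xp_form _ _ hf]
    have h3 : Φ v ⟨l, ⟨j, hjm⟩, ⟨i, hi⟩⟩ = 0 := by
      rw [LinearMap.mem_ker] at hv
      rw [hv]
      rfl
    rw [← h3]
    show _ = ∑ m : exps d, v m * en (p l 0) (fun k => p l (k + 1)) m.1 i j
    refine Finset.sum_congr rfl fun m _ => ?_
    rw [hfv]

theorem sum_range_cast (n : ℕ) : ∑ j ∈ Finset.range n, (j : ℝ) = n * ((n : ℝ) - 1) / 2 := by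
  induction n with
  | zero => simp
  | succ n ih =>
    rw [Finset.sum_range_succ, ih]
    push_cast
    ring

theorem count_le {s m : ℕ} {t : Fin s → ℝ} (ht0 : ∀ l, 0 ≤ t l) :
    ((∑ l, ∑ j : Fin m, ⌈t l * ((m : ℝ) - (j : ℕ))⌉₊ : ℕ) : ℝ) ≤
      (∑ l, t l) * (m * (m + 1) / 2) + s * m := by
  push_cast
  have h1 : ∀ l, ∑ j : Fin m, (⌈t l * ((m : ℝ) - (j : ℕ))⌉₊ : ℝ) ≤ t l * (m * (m + 1) / 2) + m := by
    intro l
    have h2 : ∀ j : Fin m, (⌈t l * ((m : ℝ) - (j : ℕ))⌉₊ : ℝ) ≤ t l * ((m : ℝ) - (j : ℕ)) + 1 := by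
      intro j
      have h3 : ((j : ℕ) : ℝ) ≤ m := by exact_mod_cast j.2.le
      exact (Nat.ceil_lt_add_one (mul_nonneg (ht0 l) (by linarith))).le
    refine (Finset.sum_le_sum fun j _ => h2 j).trans (le_of_eq ?_)
    rw [Finset.sum_add_distrib, ← Finset.mul_sum, Finset.sum_sub_distrib, Finset.sum_const,
      Finset.sum_const, Finset.card_univ, Fintype.card_fin,
      Fin.sum_univ_eq_sum_range (fun j => (j : ℝ)) m, sum_range_cast]
    simp only [nsmul_eq_mul]
    ring
  refine (Finset.sum_le_sum fun l _ => h1 l).trans (le_of_eq ?_)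
  rw [Finset.sum_add_distrib, ← Finset.sum_mul, Finset.sum_const, Finset.card_univ,
    Fintype.card_fin, nsmul_eq_mul]

/-- **sharpness**: along arbitrary germs there are forms of large degree with values close to
`d t_l / √T` at all germs -/
theorem lower {L : Type*} [Field L] {s : ℕ} (p : Fin s → ℕ → L) {t : Fin s → ℝ}
    (ht0 : ∀ l, 0 ≤ t l) (hT : 0 < ∑ l, t l) {ε : ℝ} (hε : 0 < ε) :
    ∃ D : ℕ, ∀ d : ℕ, D ≤ d → ∃ f : MvPolynomial (Fin 3) L, f.IsHomogeneous d ∧ f ≠ 0 ∧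
      ∀ l i j, PowerSeries.coeff i ((xp (p l 0) (fun k => p l (k + 1)) f).coeff j) ≠ 0 →
        (1 - ε) * (d * t l / √(∑ l, t l)) ≤ i + t l * j := by
  obtain ⟨T, hTdef⟩ : ∃ T, T = ∑ l, t l := ⟨_, rfl⟩
  rw [← hTdef] at hT ⊢
  obtain ⟨r, hr⟩ : ∃ r, r = √T := ⟨_, rfl⟩
  have hr0 : 0 < r := by rw [hr]; exact Real.sqrt_pos.2 hT
  have hrr : r * r = T := by rw [hr]; exact Real.mul_self_sqrt hT.le
  rw [← hr]
  obtain ⟨η, hη⟩ : ∃ η, η = min ε 1 / 2 := ⟨_, rfl⟩
  have hη0 : 0 < η := by rw [hη]; have := lt_min hε one_pos; linarith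
  have hη1 : η ≤ ε / 2 := by rw [hη]; have := min_le_left ε 1; linarith
  have hη2 : η ≤ 1 / 2 := by rw [hη]; have := min_le_right ε 1; linarith
  obtain ⟨D, hD⟩ := exists_nat_gt (max (r / η) ((r + 2 * s / r) / η))
  refine ⟨D, fun d hd => ?_⟩
  have hdR : (D : ℝ) ≤ d := by exact_mod_cast hd
  have hd1 : r / η < d := (le_max_left _ _).trans_lt (hD.trans_le hdR)
  have hd2 : (r + 2 * s / r) / η < d := (le_max_right _ _).trans_lt (hD.trans_le hdR)
  rw [div_lt_iff₀ hη0] at hd1 hd2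
  have hd0 : (0 : ℝ) ≤ d := Nat.cast_nonneg d
  obtain ⟨m, hm⟩ : ∃ m, m = ⌊(1 - η) * (d / r)⌋₊ := ⟨_, rfl⟩
  have hx0 : 0 ≤ (1 - η) * (d / r) := mul_nonneg (by linarith) (by positivity)
  have hm1 : (m : ℝ) ≤ (1 - η) * (d / r) := by rw [hm]; exact Nat.floor_le hx0
  have hm2 : (1 - η) * (d / r) < m + 1 := by rw [hm]; exact Nat.lt_floor_add_one _
  have hm0 : (0 : ℝ) ≤ m := Nat.cast_nonneg m
  have hmr : (m : ℝ) * r ≤ (1 - η) * d := by
    have := mul_le_mul_of_nonneg_right hm1 hr0.le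
    have e1 : (1 - η) * (d / r) * r = (1 - η) * d := by field_simp
    linarith
  obtain ⟨f, hf, hf0, hfv⟩ := exists_high p (t := t) m (d := d) (by
    have h1 := count_le (m := m) ht0
    rw [← hTdef] at h1
    have h2 : ((d + 2).choose 2 : ℝ) = (d + 2) * (d + 1) / 2 := by
      have h5 : (d + 2).choose 2 * 2 = (d + 2) * (d + 1) := by
        rw [Nat.choose_two_right, Nat.div_mul_cancel (Nat.even_mul_pred_self _).two_dvd]
        rfl
      have h6 : (((d + 2).choose 2 * 2 : ℕ) : ℝ) = (((d + 2) * (d + 1) : ℕ) : ℝ) := by rw [h5]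
      push_cast at h6
      linarith
    have h3 : T * (m * (m + 1) / 2) + s * m < ((d + 2).choose 2 : ℝ) := by
      rw [h2]
      have h4 : T * (m * m) ≤ (1 - η) * d * ((1 - η) * d) := by
        have : T * (m * m) = (m * r) * (m * r) := by rw [← hrr]; ring
        rw [this]
        exact mul_le_mul hmr hmr (by positivity) (mul_nonneg (by linarith) hd0)
      have h5 : T * m ≤ r * d := by
        have : T * m = r * (m * r) := by rw [← hrr]; ring
        rw [this]
        refine mul_le_mul_of_nonneg_left ?_ hr0.le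
        nlinarith
      have h6 : (s : ℝ) * m ≤ s * (d / r) := by
        refine mul_le_mul_of_nonneg_left ?_ (Nat.cast_nonneg s)
        refine hm1.trans ?_
        have : 0 ≤ (d : ℝ) / r := by positivity
        nlinarith
      have h7 : (r + 2 * s / r) * d ≤ (d * η) * d := mul_le_mul_of_nonneg_right hd2.le hd0
      have e1 : (r + 2 * s / r) * (d : ℝ) = r * d + 2 * (s * (d / r)) := by ring
      rw [e1] at h7
      nlinarith [mul_nonneg (mul_nonneg hη0.le (by linarith : (0 : ℝ) ≤ 1 - η)) (mul_nonneg hd0 hd0)]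
    exact_mod_cast h1.trans_lt h3) ht0
  refine ⟨f, hf, hf0, fun l i j hij => le_trans ?_ (hfv l i j hij)⟩
  have h1 : (1 - ε) * (d / r) ≤ m := by
    have h2 : 1 ≤ η * (d / r) := by
      rw [← mul_div_assoc, le_div_iff₀ hr0]
      linarith
    have h3 : 0 ≤ (d : ℝ) / r := by positivity
    nlinarith
  have e2 : (1 - ε) * (d * t l / r) = t l * ((1 - ε) * (d / r)) := by ring
  rw [e2]
  exact mul_le_mul_of_nonneg_left h1 (ht0 l)

end Pool.Agent.J6H12.RW
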