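import Pool.Agent.J6H12.RW.Int
import Pool.Agent.TH308.QM.Fin

set_option autoImplicit false

/-!
# Several general germs with arbitrary real weights
-/

namespace Pool.Agent.J6H12.RW

open Polynomial
open Pool.Agent.TH183.QT (exps mem_exps DegLE ValLE)

universe u

/-- a point outside a hypersurface with finitely many nonzero coordinates -/
theorem exists_finite_point {P : MvPolynomial ℕ ℂ} (hP : P ≠ 0) :
    ∃ (c : ℕ → ℂ) (N : ℕ), MvPolynomial.eval c P ≠ 0 ∧ ∀ k, N ≤ k → c k = 0 := by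
  classical
  have h1 : ∃ c : ℕ → ℂ, MvPolynomial.eval c P ≠ 0 := by
    by_contra hcon
    push Not at hcon
    exact hP (MvPolynomial.funext fun x => by rw [hcon x, map_zero])
  obtain ⟨c, hc⟩ := h1
  refine ⟨fun k => if k ∈ P.vars then c k else 0, P.vars.sup id + 1, ?_, ?_⟩
  · have h2 : MvPolynomial.eval (fun k => if k ∈ P.vars then c k else 0) P =
        MvPolynomial.eval c P := by
      apply MvPolynomial.eval₂Hom_congr' rfl
      · intro i hi _
        rw [if_pos hi]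
      · rfl
    rw [h2]
    exact hc
  · intro k hk
    simp only
    rw [if_neg]
    intro h
    have := Finset.le_sup (f := id) h
    simp only [id] at this
    omega

/-- one germ -/
theorem single {t W : ℝ} {d : ℕ} {E : ℕ → ℕ} (ht : 9 ≤ t) (hd : (d : ℝ) * √t < W)
    (hE : ∀ j : ℕ, j ≤ d → W - t * j ≤ E j) :
    ∃ q : ℂ[X], ∀ f : MvPolynomial (Fin 3) ℂ, f.IsHomogeneous d →
      (∀ j, (X - C 0 : ℂ[X]) ^ (E j) ∣ (gp q f).coeff j) → f = 0 := by
  simp only [C_0, sub_zero]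
  have ht0 : (0 : ℝ) ≤ t := by linarith
  have hs : √t ≤ t := by
    have h1 : 1 ≤ √t := Real.one_le_sqrt.2 (by linarith)
    nlinarith [Real.mul_self_sqrt ht0]
  have hdt : (d : ℝ) * √t < t * (d + 1) := by
    have : (d : ℝ) * √t ≤ d * t := mul_le_mul_of_nonneg_left hs (Nat.cast_nonneg d)
    nlinarith
  obtain ⟨B, hB1, hB2⟩ := exists_between (lt_min hd hdt)
  obtain ⟨P, hP, hP'⟩ := Pool.Agent.TH308.QM.degLE_nine ht hB1
  obtain ⟨c, N, hc, hcN⟩ := exists_finite_point hP
  let q : ℂ[X] := X * ∑ k ∈ Finset.range N, C (c k) * X ^ k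
  have hq : (q : PowerSeries ℂ) = PowerSeries.X * PowerSeries.mk c := by
    show ((X * ∑ k ∈ Finset.range N, C (c k) * X ^ k : ℂ[X]) : PowerSeries ℂ) = _
    rw [Polynomial.coe_mul, Polynomial.coe_X]
    congr 1
    ext n
    rw [Polynomial.coeff_coe, PowerSeries.coeff_mk, Polynomial.finsetSum_coeff]
    simp only [coeff_C_mul, coeff_X_pow, mul_ite, mul_one, mul_zero]
    rw [Finset.sum_ite_eq]
    split_ifs with h
    · rfl
    · exact (hcN n (by simpa using h)).symm
  refine ⟨q, fun f hf hX => ?_⟩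
  by_contra hne
  obtain ⟨i, j, hij, hle⟩ := hP' c hc f hf hne
  have h1 : (MvPolynomial.aeval (![Polynomial.C PowerSeries.X,
      Polynomial.C (PowerSeries.X * PowerSeries.mk c) + Polynomial.X, 1] :
        Fin 3 → Polynomial (PowerSeries ℂ)) f) =
      mapRingHom (coeToPowerSeries.ringHom (R := ℂ)) (gp q f) := by
    unfold gp
    rw [MvPolynomial.aeval_def, MvPolynomial.aeval_def, MvPolynomial.hom_eval₂]
    congr 1
    · ext c
      simp
    · funext i
      fin_cases i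
      · simp
      · simp [hq]
      · simp
  rw [h1, coe_mapRingHom, coeff_map, coeToPowerSeries.ringHom_apply, coeff_coe] at hij
  have hjd : j ≤ d := by
    by_contra hcon
    push Not at hcon
    have h2 : (d : ℝ) + 1 ≤ j := by exact_mod_cast hcon
    have h3 : t * ((d : ℝ) + 1) ≤ t * j := mul_le_mul_of_nonneg_left h2 ht0
    have h4 : (0 : ℝ) ≤ i := Nat.cast_nonneg i
    have := hB2.trans_le (min_le_right _ _)
    linarith
  have h5 : (i : ℝ) < E j := by
    have h2 := hE j hjd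
    have h3 := hB2.trans_le (min_le_left _ _)
    linarith
  have h6 : i < E j := by exact_mod_cast h5
  exact hij (X_pow_dvd_iff.1 (hX j) i h6)

/-- the numerical condition: total weight `T`, total value `W` -/
def Cnd (d : ℕ) (T W : ℝ) : Prop :=
  (9 ≤ T ∧ (d : ℝ) * √T < W) ∨ (1 ≤ d ∧ (∃ n : ℕ, 9 < n ∧ (n : ℝ) = T) ∧ (d : ℝ) * √T ≤ W)

theorem Cnd.nine {d : ℕ} {T W : ℝ} (h : Cnd d T W) : 9 ≤ T := by
  rcases h with h | ⟨-, ⟨n, hn, rfl⟩, -⟩
  · exact h.1
  · exact_mod_cast hn.le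

theorem Cnd.le {d : ℕ} {T W : ℝ} (h : Cnd d T W) : (d : ℝ) * √T ≤ W := by
  rcases h with h | h
  · exact h.2.le
  · exact h.2.2

/-- **emptiness for real weights** for one configuration of germs -/
theorem exists_config {s d : ℕ} {t w : Fin s → ℝ} (h : Cnd d (∑ l, t l) (∑ l, w l))
    {e : Fin s → ℕ → ℕ} (he : ∀ l, ∀ j : ℕ, j ≤ d → w l - t l * j ≤ e l j) :
    ∃ (K' : Type) (_ : Field K') (_ : CharZero K') (p0 : Fin s → ℕ → K'), Emp d e p0 := by
  have hE : ∀ j : ℕ, j ≤ d → ∑ l, w l - (∑ l, t l) * j ≤ ((∑ l, e l j : ℕ) : ℝ) := by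
    intro j hj
    rw [Finset.sum_mul, ← Finset.sum_sub_distrib]
    push_cast
    exact Finset.sum_le_sum fun l _ => he l j hj
  rcases h with ⟨ht, hw⟩ | ⟨hd, ⟨n, hn, hnT⟩, hw⟩
  · obtain ⟨q, hq⟩ := single (E := fun j => ∑ l, e l j) ht hw hE
    exact collide 0 q hq
  · obtain ⟨K, _, _, x0, q, hq⟩ := single_int (E := fun j => ∑ l, e l j) hn hd (by
      intro j hj
      have h1 := hE j hj
      rw [← hnT] at h1 hw
      linarith)
    exact collide x0 q hq

/-- the exponents with a given table -/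
def eOf {s d B : ℕ} (π : Fin s → Fin (d + 1) → Fin (B + 1)) (l : Fin s) (j : ℕ) : ℕ :=
  if h : j < d + 1 then (π l ⟨j, h⟩ : ℕ) else 0

/-- one hypersurface for all weights and all bounded values -/
theorem core (s d B : ℕ) :
    ∃ F : MvPolynomial (Fin s × ℕ) ℚ, F ≠ 0 ∧ ∀ (L : Type u) [Field L] [CharZero L]
      (p : Fin s → ℕ → L), MvPolynomial.aeval (fun q : Fin s × ℕ => p q.1 q.2) F ≠ 0 →
        ∀ t w : Fin s → ℝ, Cnd d (∑ l, t l) (∑ l, w l) →
          (∀ l, 0 ≤ t l) → (∀ l, w l ≤ B) → ∀ f : MvPolynomial (Fin 3) L, f.IsHomogeneous d →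
            (∀ l i j, PowerSeries.coeff i ((xp (p l 0) (fun k => p l (k + 1)) f).coeff j) ≠ 0 →
              w l ≤ i + t l * j) → f = 0 := by
  classical
  have h1 : ∀ π : Fin s → Fin (d + 1) → Fin (B + 1), ∃ F : MvPolynomial (Fin s × ℕ) ℚ, F ≠ 0 ∧
      ((∃ (K' : Type) (_ : Field K') (_ : CharZero K') (p0 : Fin s → ℕ → K'),
        Emp d (eOf π) p0) → ∀ (L : Type u) [Field L] [CharZero L]
      (p : Fin s → ℕ → L), MvPolynomial.aeval (fun q : Fin s × ℕ => p q.1 q.2) F ≠ 0 →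
        Emp d (eOf π) p) := by
    intro π
    by_cases h : ∃ (K' : Type) (_ : Field K') (_ : CharZero K') (p0 : Fin s → ℕ → K'),
        Emp d (eOf π) p0
    · obtain ⟨K', _, _, p0, h0⟩ := h
      obtain ⟨F, hF, hF'⟩ := transfer.{u} h0
      exact ⟨F, hF, fun _ => hF'⟩
    · exact ⟨1, one_ne_zero, fun h' => absurd h' h⟩
  choose G hG hG' using h1
  refine ⟨∏ π, G π, Finset.prod_ne_zero_iff.2 fun π _ => hG π, ?_⟩
  intro L _ _ p hp t w hcnd ht0 hwB f hf hv
  rw [map_prod, Finset.prod_ne_zero_iff] at hp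
  have hle : ∀ (l : Fin s) (j : Fin (d + 1)), ⌈w l - t l * (j : ℕ)⌉₊ < B + 1 := by
    intro l j
    rw [Nat.lt_succ_iff, Nat.ceil_le]
    have h2 := hwB l
    have h3 : 0 ≤ t l * ((j : ℕ) : ℝ) := mul_nonneg (ht0 l) (Nat.cast_nonneg _)
    linarith
  obtain ⟨π, hπ⟩ : ∃ π : Fin s → Fin (d + 1) → Fin (B + 1),
      π = fun l j => ⟨⌈w l - t l * (j : ℕ)⌉₊, hle l j⟩ := ⟨_, rfl⟩
  have hπ1 : ∀ l j, j ≤ d → eOf π l j = ⌈w l - t l * j⌉₊ := by
    intro l j hj
    unfold eOf
    rw [dif_pos (by omega), hπ]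
  have hπ2 : ∀ l j, d < j → eOf π l j = 0 := by
    intro l j hj
    unfold eOf
    rw [dif_neg (by omega)]
  have h2 : ∃ (K' : Type) (_ : Field K') (_ : CharZero K') (p0 : Fin s → ℕ → K'),
      Emp d (eOf π) p0 := by
    refine exists_config hcnd fun l j hj => ?_
    rw [hπ1 l j hj]
    exact Nat.le_ceil _
  refine hG' π h2 L p (hp π (Finset.mem_univ π)) f hf fun l j i hi => ?_
  rcases Nat.lt_or_ge d j with hj | hj
  · rw [hπ2 l j hj] at hi
    omega
  · rw [hπ1 l j hj, Nat.lt_ceil] at hi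
    by_contra hcon
    have := hv l i j hcon
    linarith

/-- the least value -/
theorem exists_least {L : Type*} [Field L] {P : Polynomial (PowerSeries L)} (hP : P ≠ 0) (t : ℝ) :
    ∃ m : ℕ × ℕ, PowerSeries.coeff m.1 (P.coeff m.2) ≠ 0 ∧
      ∀ i j, PowerSeries.coeff i (P.coeff j) ≠ 0 → (m.1 : ℝ) + t * m.2 ≤ i + t * j := by
  classical
  have h1 : ∀ j, ∃ i, j ∈ P.support → PowerSeries.coeff i (P.coeff j) ≠ 0 ∧
      ∀ i', PowerSeries.coeff i' (P.coeff j) ≠ 0 → i ≤ i' := by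
    intro j
    by_cases hj : j ∈ P.support
    · have h2 : ∃ i, PowerSeries.coeff i (P.coeff j) ≠ 0 := by
        by_contra hcon
        push Not at hcon
        exact Polynomial.mem_support_iff.1 hj (by ext i; rw [hcon i]; simp)
      exact ⟨Nat.find h2, fun _ => ⟨Nat.find_spec h2, fun i' hi' => Nat.find_min' h2 hi'⟩⟩
    · exact ⟨0, fun h => absurd h hj⟩
  choose o ho using h1
  obtain ⟨j0, hj0, hmin⟩ := Finset.exists_min_image P.support (fun j => (o j : ℝ) + t * j)
    (Polynomial.support_nonempty.2 hP)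
  refine ⟨(o j0, j0), (ho j0 hj0).1, fun i j hij => ?_⟩
  have hj : j ∈ P.support := by
    rw [Polynomial.mem_support_iff]
    intro h
    rw [h] at hij
    exact hij (by simp)
  have h2 := hmin j hj
  have h3 : ((o j : ℕ) : ℝ) ≤ i := by exact_mod_cast (ho j hj).2 i hij
  simp only at h2 ⊢
  linarith

/-- the bound for weights at most `(d + 3) ^ 2`, with the least values at all germs -/
theorem bounded {s d B : ℕ} (hB : d * (s * (d + 3) ^ 2 + 1) + 1 ≤ B) {L : Type*} [Field L]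
    {p : Fin s → ℕ → L}
    (hc : ∀ t w : Fin s → ℝ, Cnd d (∑ l, t l) (∑ l, w l) →
          (∀ l, 0 ≤ t l) → (∀ l, w l ≤ B) → ∀ f : MvPolynomial (Fin 3) L, f.IsHomogeneous d →
            (∀ l i j, PowerSeries.coeff i ((xp (p l 0) (fun k => p l (k + 1)) f).coeff j) ≠ 0 →
              w l ≤ i + t l * j) → f = 0)
    {t : Fin s → ℝ} (ht : 9 ≤ ∑ l, t l) (ht0 : ∀ l, 0 ≤ t l)
    (htd : ∀ l, t l ≤ ((d : ℝ) + 3) ^ 2) {f : MvPolynomial (Fin 3) L} (hf : f.IsHomogeneous d)
    (hf0 : f ≠ 0) :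
    ∃ m : Fin s → ℕ × ℕ,
      (∀ l, PowerSeries.coeff (m l).1 ((xp (p l 0) (fun k => p l (k + 1)) f).coeff (m l).2) ≠ 0 ∧
        ∀ i j, PowerSeries.coeff i ((xp (p l 0) (fun k => p l (k + 1)) f).coeff j) ≠ 0 →
          ((m l).1 : ℝ) + t l * (m l).2 ≤ i + t l * j) ∧
      ¬ Cnd d (∑ l, t l) (∑ l, (((m l).1 : ℝ) + t l * (m l).2)) := by
  classical
  have hd0 : (0 : ℝ) ≤ d := Nat.cast_nonneg d
  have hBR : (d : ℝ) * (s * ((d : ℝ) + 3) ^ 2 + 1) + 1 ≤ B := by exact_mod_cast hB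
  -- the expansions are not zero
  have hne : ∀ l, xp (p l 0) (fun k => p l (k + 1)) f ≠ 0 := by
    intro l h0
    apply hf0
    have hs : (1 : ℝ) ≤ s := by exact_mod_cast (Nat.one_le_iff_ne_zero.2 (by
      rintro rfl
      exact l.elim0))
    refine hc (Pi.single l 9) (Pi.single l (B : ℝ)) ?_ ?_ ?_ f hf ?_
    · rw [Finset.sum_pi_single', Finset.sum_pi_single']
      simp only [Finset.mem_univ, if_true]
      refine Or.inl ⟨le_rfl, ?_⟩
      have h9 : √(9 : ℝ) = 3 := by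
        rw [show (9 : ℝ) = 3 ^ 2 by norm_num]
        exact Real.sqrt_sq (by norm_num)
      rw [h9]
      have h2 : (1 : ℝ) * 9 ≤ s * ((d : ℝ) + 3) ^ 2 :=
        mul_le_mul hs (by nlinarith) (by norm_num) (by linarith)
      nlinarith
    · intro l'
      by_cases h : l' = l
      · subst h; simp
      · rw [Pi.single_eq_of_ne h]
    · intro l'
      by_cases h : l' = l
      · subst h; simp
      · rw [Pi.single_eq_of_ne h]; exact Nat.cast_nonneg B
    · intro l' i j hij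
      by_cases h : l' = l
      · subst h
        rw [h0] at hij
        exact absurd (by simp) hij
      · rw [Pi.single_eq_of_ne h, Pi.single_eq_of_ne h]
        simp
  choose m hm using fun l => exists_least (hne l) (t l)
  refine ⟨m, hm, ?_⟩
  intro hcon
  obtain ⟨v, hv⟩ : ∃ v : Fin s → ℝ, v = fun l => ((m l).1 : ℝ) + t l * (m l).2 := ⟨_, rfl⟩
  have hv0 : ∀ l, 0 ≤ v l := by
    intro l
    rw [hv]
    exact add_nonneg (Nat.cast_nonneg _) (mul_nonneg (ht0 l) (Nat.cast_nonneg _))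
  have hcon' : Cnd d (∑ l, t l) (∑ l, v l) := by rw [hv]; exact hcon
  have hM : (d : ℝ) * √(∑ l, t l) < B := by
    have h1 : ∑ l, t l ≤ s * ((d : ℝ) + 3) ^ 2 := by
      refine (Finset.sum_le_sum fun l _ => htd l).trans ?_
      simp
    have h2 : √(∑ l, t l) ≤ s * ((d : ℝ) + 3) ^ 2 + 1 := by
      have h3 : 0 ≤ √(∑ l, t l) := Real.sqrt_nonneg _
      have h4 : √(∑ l, t l) * √(∑ l, t l) = ∑ l, t l := Real.mul_self_sqrt (by linarith)
      nlinarith
    have := mul_le_mul_of_nonneg_left h2 hd0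
    linarith
  refine hf0 (hc t (fun l => min (v l) B) ?_ ht0 (fun l => min_le_right _ _) f hf ?_)
  · by_cases hall : ∀ l, v l ≤ B
    · rw [Finset.sum_congr rfl fun l _ => min_eq_left (hall l)]
      exact hcon'
    · push Not at hall
      obtain ⟨l, hl⟩ := hall
      refine Or.inl ⟨ht, hM.trans_le (le_trans (min_eq_right hl.le).ge (Finset.single_le_sum (f := fun l => min (v l) (B : ℝ))
        (fun l _ => le_min (hv0 l) (Nat.cast_nonneg B)) (Finset.mem_univ l)))⟩
  · intro l i j hij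
    refine (min_le_left _ _).trans ?_
    rw [hv]
    exact (hm l).2 i j hij

/-- **all real weights at once**: in each degree one hypersurface -/
theorem main (s d : ℕ) :
    ∃ F : MvPolynomial (Fin s × ℕ) ℚ, F ≠ 0 ∧ ∀ (L : Type u) [Field L] [CharZero L]
      (p : Fin s → ℕ → L), MvPolynomial.aeval (fun q : Fin s × ℕ => p q.1 q.2) F ≠ 0 →
        ∀ t : Fin s → ℝ, (∀ l, 0 ≤ t l) → 9 ≤ ∑ l, t l → ∀ f : MvPolynomial (Fin 3) L,
          f.IsHomogeneous d → f ≠ 0 → ∃ m : Fin s → ℕ × ℕ,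
          (∀ l, PowerSeries.coeff (m l).1
            ((xp (p l 0) (fun k => p l (k + 1)) f).coeff (m l).2) ≠ 0) ∧
          ∑ l, (((m l).1 : ℝ) + t l * (m l).2) ≤ d * √(∑ l, t l) ∧
          (1 ≤ d → (∃ n : ℕ, 9 < n ∧ (n : ℝ) = ∑ l, t l) →
            ∑ l, (((m l).1 : ℝ) + t l * (m l).2) < d * √(∑ l, t l)) := by
  classical
  obtain ⟨F, hF, hF'⟩ := core.{u} s d (d * (s * (d + 3) ^ 2 + 1) + 1)
  refine ⟨F, hF, fun L _ _ p hp t ht0 ht f hf hf0 => ?_⟩
  have hc := hF' L p hp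
  have hd0 : (0 : ℝ) ≤ d := Nat.cast_nonneg d
  obtain ⟨T, hT⟩ : ∃ T : ℝ, T = ((d : ℝ) + 3) ^ 2 := ⟨_, rfl⟩
  have hT9 : 9 ≤ T := by rw [hT]; nlinarith
  have hTs : √T = d + 3 := by rw [hT]; exact Real.sqrt_sq (by linarith)
  -- high contact is impossible
  have hcontact : ∀ l, ∃ i : ℕ, (i : ℝ) < T ∧
      PowerSeries.coeff i ((xp (p l 0) (fun k => p l (k + 1)) f).coeff 0) ≠ 0 := by
    intro l
    have hsum : ∑ l', (Pi.single l T : Fin s → ℝ) l' = T := by
      rw [Finset.sum_pi_single']; simp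
    obtain ⟨m, hm, hms⟩ := bounded le_rfl hc (t := Pi.single l T) (by rw [hsum]; exact hT9) (by
      intro l'
      by_cases h : l' = l
      · subst h; simp only [Pi.single_eq_same]; linarith
      · rw [Pi.single_eq_of_ne h]) (by
      intro l'
      by_cases h : l' = l
      · subst h; simp only [Pi.single_eq_same]; exact hT.le
      · rw [Pi.single_eq_of_ne h]; positivity) hf hf0
    rw [hsum] at hms
    have hms' : ∑ l', (((m l').1 : ℝ) + (Pi.single l T : Fin s → ℝ) l' * (m l').2) ≤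
        d * (d + 3) := by
      by_contra hcon
      exact hms (Or.inl ⟨hT9, by rw [hTs]; exact not_le.1 hcon⟩)
    have h1 : ((m l).1 : ℝ) + T * (m l).2 ≤ d * (d + 3) := by
      refine le_trans ?_ hms'
      have h2 := Finset.single_le_sum
        (f := fun l' => ((m l').1 : ℝ) + (Pi.single l T : Fin s → ℝ) l' * (m l').2) (fun l' _ => by
          by_cases h : l' = l
          · subst h; simp only [Pi.single_eq_same]; positivity
          · simp only [Pi.single_eq_of_ne h]; positivity) (Finset.mem_univ l)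
      simp only [Pi.single_eq_same] at h2
      exact h2
    have h2 : (d : ℝ) * (d + 3) < T := by rw [hT]; nlinarith
    have h3 : (m l).2 = 0 := by
      by_contra hne
      have h4 : (1 : ℝ) ≤ (m l).2 := by exact_mod_cast Nat.one_le_iff_ne_zero.2 hne
      have h5 : (0 : ℝ) ≤ (m l).1 := Nat.cast_nonneg _
      nlinarith
    refine ⟨(m l).1, ?_, ?_⟩
    · rw [h3] at h1
      simp only [Nat.cast_zero, mul_zero, add_zero] at h1
      linarith
    · have h4 := (hm l).1
      rwa [h3] at h4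
  -- the weights cut off at `T`
  have ht'0 : ∀ l, 0 ≤ min (t l) T := fun l => le_min (ht0 l) (by linarith)
  have ht'9 : 9 ≤ ∑ l, min (t l) T := by
    by_cases hall : ∀ l, t l ≤ T
    · rw [Finset.sum_congr rfl fun l _ => min_eq_left (hall l)]
      exact ht
    · push Not at hall
      obtain ⟨l, hl⟩ := hall
      refine hT9.trans (le_trans (min_eq_right hl.le).ge ?_)
      exact Finset.single_le_sum (f := fun l => min (t l) T)
        (fun l _ => ht'0 l) (Finset.mem_univ l)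
  obtain ⟨m, hm, hms⟩ := bounded le_rfl hc (t := fun l => min (t l) T) ht'9 ht'0
    (fun l => by rw [← hT]; exact min_le_right _ _) hf hf0
  refine ⟨m, fun l => (hm l).1, ?_⟩
  have h1 : ∀ l, ((m l).1 : ℝ) + t l * (m l).2 = ((m l).1 : ℝ) + min (t l) T * (m l).2 := by
    intro l
    rcases le_or_gt (t l) T with h | h
    · rw [min_eq_left h]
    · obtain ⟨i, hi, hi'⟩ := hcontact l
      have h2 := (hm l).2 i 0 hi'
      simp only [Nat.cast_zero, mul_zero, add_zero] at h2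
      rw [min_eq_right h.le] at h2 ⊢
      have h3 : (m l).2 = 0 := by
        by_contra hne
        have h4 : (1 : ℝ) ≤ (m l).2 := by exact_mod_cast Nat.one_le_iff_ne_zero.2 hne
        have h5 : (0 : ℝ) ≤ (m l).1 := Nat.cast_nonneg _
        nlinarith
      rw [h3]
      simp
  rw [Finset.sum_congr rfl fun l _ => h1 l]
  have h2 : ∑ l, (((m l).1 : ℝ) + min (t l) T * (m l).2) ≤ d * √(∑ l, min (t l) T) := by
    by_contra hcon
    exact hms (Or.inl ⟨ht'9, not_le.1 hcon⟩)
  have h3 : ∑ l, min (t l) T ≤ ∑ l, t l := Finset.sum_le_sum fun l _ => min_le_left _ _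
  refine ⟨h2.trans (mul_le_mul_of_nonneg_left (Real.sqrt_le_sqrt h3) hd0), fun hd hn => ?_⟩
  rcases h3.lt_or_eq with h4 | h4
  · refine h2.trans_lt (mul_lt_mul_of_pos_left (Real.sqrt_lt_sqrt (by linarith) h4) ?_)
    exact_mod_cast hd
  · rw [← h4] at hn ⊢
    by_contra hcon
    exact hms (Or.inr ⟨hd, hn, not_lt.1 hcon⟩)

end Pool.Agent.J6H12.RW
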